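import Mathlib

set_option autoImplicit false

namespace Pool.Agent.Results.MP_02ff8d_an.No

/-- Legendre-Fenchel conjugate on the real line -/
noncomputable def cj (f : ℝ → EReal) (y : ℝ) : EReal := ⨆ x, ((y * x : ℝ) : EReal) - f x

/-- piecewise linear solution -/
noncomputable def g (x : ℝ) : ℝ := (⌊x⌋ + 1) * x - ⌊x⌋ * (⌊x⌋ + 1) / 2

theorem le (x z : ℝ) : (z + 1) * x - g x ≤ g z := by
  have a := Int.floor_le x
  have b := Int.lt_floor_add_one x
  have c := Int.floor_le z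
  have d := Int.lt_floor_add_one z
  unfold g
  generalize ⌊x⌋ = m at *
  generalize ⌊z⌋ = n at *
  obtain ⟨e, rfl⟩ : ∃ e, m = n + e := ⟨m - n, by ring⟩
  obtain ⟨s, rfl⟩ : ∃ s, x = (n + e : ℤ) + s := ⟨x - _, (add_sub_cancel _ _).symm⟩
  obtain ⟨t, rfl⟩ : ∃ t, z = n + t := ⟨z - _, (add_sub_cancel _ _).symm⟩
  push_cast at *
  have s0 : 0 ≤ s := by linarith
  have s1 : 0 ≤ 1 - s := by linarith
  have t0 : 0 ≤ t := by linarith
  have t1 : 0 ≤ 1 - t := by linarith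
  rcases (by omega : e ≤ -1 ∨ e = 0 ∨ e = 1 ∨ 2 ≤ e) with h | rfl | rfl | h
  · have : (0 : ℝ) ≤ -1 - e := by exact_mod_cast sub_nonneg.2 h
    nlinarith [mul_nonneg t0 s1, mul_nonneg t0 this, mul_nonneg s1 this, mul_nonneg this this]
  · push_cast; nlinarith [mul_nonneg t0 s1]
  · push_cast; nlinarith [mul_nonneg s0 t1]
  · have : (0 : ℝ) ≤ e - 2 := by exact_mod_cast sub_nonneg.2 h
    nlinarith [mul_nonneg s0 t1, mul_nonneg t1 this, mul_nonneg s0 this, mul_nonneg this this]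

theorem result (c : ℝ) (hc : c ≠ 0) : ∃ f : ℝ → EReal, (∀ x, f x = cj f (x + c)) ∧
    f ≠ fun x => ((x ^ 2 / 2 + c / 2 * x + c ^ 2 / 16 : ℝ) : EReal) := by
  refine ⟨fun x => (c ^ 2 * g (x / c) : ℝ), fun z => le_antisymm ?_ (iSup_le fun x => ?_), fun h => ?_⟩
  · refine le_iSup_of_le (c * (⌊z / c⌋ + 1 : ℤ)) (le_of_eq ?_)
    rw [← EReal.coe_sub, mul_div_cancel_left₀ _ hc, EReal.coe_eq_coe_iff]
    simp only [g, Int.floor_intCast]
    generalize ⌊z / c⌋ = n
    push_cast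
    field_simp
    ring
  · rw [← EReal.coe_sub, EReal.coe_le_coe_iff]
    refine le_trans (le_of_eq ?_) (mul_le_mul_of_nonneg_left (le (x / c) (z / c)) (sq_nonneg c))
    field_simp
  have := EReal.coe_injective (congrFun h 0)
  simp [g, eq_comm (a := (0 : ℝ)), hc] at this

end Pool.Agent.Results.MP_02ff8d_an.No
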